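import Mathlib
import Pool.Agent.Q149.ICDefs
import Pool.Agent.Q149.IC2

/-!
# MP_e13ffb, Q1: the `d`-parallelogram condition does not imply Condition H

The definitions `toR`, `IntegrallyConvex`, `ParallelogramCondition`, `IsComponent`, `Separates`,
`ConditionH` are in `Pool/Agent/Q149/ICDefs.lean`.
-/

namespace Pool.Agent.Results.MP_e13ffb_co.Fibonacci

open Q149.IC

/-- For every `d ≥ 4` there are a finite integrally convex set `S = A ∪ B ⊆ ℤ^d` (even a subset of
`{0,1}^d`) and a partition of it into nonempty sets `A`, `B` which satisfies the `d`-parallelogram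
condition (even the `k`-parallelogram condition with `k = F_{d+1} - 1`, where `F` is the Fibonacci
sequence) but not Condition H. -/
theorem result (d : ℕ) (hd : 4 ≤ d) : ∃ A B : Finset (Fin d → ℤ),
    A.Nonempty ∧ B.Nonempty ∧ Disjoint A B ∧
    IntegrallyConvex ((A : Set (Fin d → ℤ)) ∪ (B : Set (Fin d → ℤ))) ∧
    (∀ x ∈ A ∪ B, ∀ i, x i = 0 ∨ x i = 1) ∧
    ParallelogramCondition d (A : Set (Fin d → ℤ)) (B : Set (Fin d → ℤ)) ∧
    ParallelogramCondition (Nat.fib (d + 1) - 1) (A : Set (Fin d → ℤ)) (B : Set (Fin d → ℤ)) ∧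
    ¬ ConditionH (A : Set (Fin d → ℤ)) (B : Set (Fin d → ℤ)) := by
  obtain ⟨A, B, hA, hB, hAB, h01, hpar, hH⟩ := main d hd
  refine ⟨A, B, hA, hB, hAB, ?_, h01, ?_, hpar, hH⟩
  · apply integrallyConvex_of_01
    intro y hy i
    exact h01 y (Finset.mem_union.mpr (by simpa using hy)) i
  · intro m hm1 hm2
    exact hpar m hm1 (hm2.trans (fib_ge d hd))

end Pool.Agent.Results.MP_e13ffb_co.Fibonacci
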